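import Pool.Agent.helper55.NM.Spec2

set_option autoImplicit false

namespace Pool.Agent.helper40.NM

open Pool.Agent.NM Pool.Agent.helper72.UP Finset Nat

theorem SYM : SYM_stmt := by
  intro n k x
  unfold zer
  refine congrArg Finset.card ?_
  apply Finset.filter_congr
  intro s _
  rw [Finset.sum_neg_distrib, neg_eq_zero]

end Pool.Agent.helper40.NM
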